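import Pool.Agent.Lib.MP_b5021c_nt.IfaceF

/-!
# MP_b5021c_nt, board b5, row F5C: the system of disjoint rays (helper63)
-/

set_option linter.unusedSectionVars false

namespace Pool.Agent.B5.H63

open Pool.Agent.B5

/-! ## Lattices -/

section lattice

variable {L : Type} [AddCommGroup L]

theorem le_satur (K : Submodule ℤ L) : K ≤ satur K := fun a ha =>
  ⟨1, one_ne_zero, by rwa [one_smul]⟩

theorem satur_sat (K : Submodule ℤ L) : Sat (satur K) := by
  rintro n a hn ⟨m, hm, h⟩
  exact ⟨m * n, mul_ne_zero hm hn, by rwa [mul_smul]⟩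

theorem satur_le {K K' : Submodule ℤ L} (h : K ≤ satur K') : satur K ≤ satur K' := by
  rintro a ⟨n, hn, ha⟩
  exact satur_sat K' n a hn (h ha)

variable [Module.Free ℤ L] [Module.Finite ℤ L]

theorem finrank_lt_of_sat {K K' : Submodule ℤ L} (hle : K ≤ K') (hs : Sat K) {a : L}
    (ha : a ∈ K') (hna : a ∉ K) : Module.finrank ℤ K < Module.finrank ℤ K' := by
  have h1 := Submodule.finrank_quotient_add_finrank (K.submoduleOf K')
  have h2 : Module.finrank ℤ (K.submoduleOf K') = Module.finrank ℤ K :=
    (Submodule.submoduleOfEquivOfLe hle).finrank_eq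
  have h3 : Module.finrank ℤ (K' ⧸ K.submoduleOf K') ≠ 0 := by
    intro h
    rw [Module.finrank_eq_zero_iff] at h
    obtain ⟨n, hn, h4⟩ := h (Submodule.Quotient.mk ⟨a, ha⟩)
    rw [← Submodule.Quotient.mk_smul, Submodule.Quotient.mk_eq_zero] at h4
    exact hna (hs n a hn h4)
  omega

/-- a set of full rank contains a basis modulo a sublattice -/
theorem exists_basis_mod (U : Submodule ℤ L) (W : Set L) (hW : rk W = Module.finrank ℤ L) :
    ∃ (g : ℕ) (b : Fin g → L), (∀ i, b i ∈ W) ∧
      Module.finrank ℤ U + g = Module.finrank ℤ L ∧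
      LinearIndependent ℤ (fun i => U.mkQ (b i)) := by
  classical
  obtain ⟨s, hs, hmax⟩ := exists_maximal_linearIndepOn ℤ (fun w : W => U.mkQ (w : L))
  have hfin : Finite s := LinearIndependent.finite hs
  have : Fintype s := Fintype.ofFinite s
  set T : Submodule ℤ (L ⧸ U) := Submodule.span ℤ (Set.range fun x : s => U.mkQ ((x : W) : L))
    with hT
  have hTg : Module.finrank ℤ T = Fintype.card s := finrank_span_eq_card hs
  have himg : ((fun w : W => U.mkQ (w : L)) '' s) = Set.range fun x : s => U.mkQ ((x : W) : L) := by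
    ext q
    constructor
    · rintro ⟨w, hw, rfl⟩
      exact ⟨⟨w, hw⟩, rfl⟩
    · rintro ⟨x, rfl⟩
      exact ⟨x, x.2, rfl⟩
  rw [himg] at hmax
  set N : Submodule ℤ L := T.comap U.mkQ with hN
  have h1 : Submodule.span ℤ W ≤ satur N := by
    rw [Submodule.span_le]
    intro w hw
    by_cases hws : (⟨w, hw⟩ : W) ∈ s
    · apply le_satur
      rw [hN, Submodule.mem_comap]
      exact Submodule.subset_span ⟨⟨⟨w, hw⟩, hws⟩, rfl⟩
    · obtain ⟨n, hn, h⟩ := hmax ⟨w, hw⟩ hws
      refine ⟨n, hn, ?_⟩
      rw [hN, Submodule.mem_comap, map_smul]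
      exact h
  have h2 : ∀ a : L, a ∈ satur N := by
    have h3 := Submodule.finrank_quotient_add_finrank (Submodule.span ℤ W)
    have h4 : Module.finrank ℤ (L ⧸ Submodule.span ℤ W) = 0 := by
      unfold rk at hW
      omega
    rw [Module.finrank_eq_zero_iff] at h4
    intro a
    obtain ⟨n, hn, h⟩ := h4 (Submodule.Quotient.mk a)
    rw [← Submodule.Quotient.mk_smul, Submodule.Quotient.mk_eq_zero] at h
    exact satur_sat N n a hn (h1 h)
  have h5 : Module.finrank ℤ ((L ⧸ U) ⧸ T) = 0 := by
    rw [Module.finrank_eq_zero_iff]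
    intro x
    obtain ⟨q, rfl⟩ := Submodule.Quotient.mk_surjective T x
    obtain ⟨a, rfl⟩ := Submodule.Quotient.mk_surjective U q
    obtain ⟨n, hn, h⟩ := h2 a
    refine ⟨n, hn, ?_⟩
    rw [← Submodule.Quotient.mk_smul, Submodule.Quotient.mk_eq_zero]
    rw [hN, Submodule.mem_comap, map_smul] at h
    exact h
  have h6 := Submodule.finrank_quotient_add_finrank T
  have h7 := Submodule.finrank_quotient_add_finrank U
  let e : Fin (Fintype.card s) ≃ s := (Fintype.equivFin s).symm
  refine ⟨Fintype.card s, fun i => ((e i : W) : L), fun i => (e i : W).2, by omega, ?_⟩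
  exact LinearIndependent.comp hs e e.injective

end lattice

/-! ## The system of rays -/

/-- F5C -/
theorem f5c (h1 : F1S) (h2 : F2S) (h3 : F3S) (_h4 : RkS) : F5S := by
  classical
  intro O _ _ _ _ P L _ _ _ _ _ phi D eta hinj hbin hex hrk
  have hUsat : ∀ b, Sat (US (eta b) b D) := fun b => satur_sat _
  have hself : ∀ b, b ∈ US (eta b) b D := fun b =>
    le_satur _ (Submodule.subset_span (Set.mem_insert _ _))
  -- the first ray
  have hfin : {b : L | Ray D b}.Finite := by
    refine (D.coeff.support.finite_toSet).subset fun b hb => ?_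
    exact Finsupp.mem_support_iff.mpr hb.1
  obtain ⟨S0, hS0, hmax⟩ := Set.exists_max_image {b : L | Ray D b}
    (fun b => Module.finrank ℤ (US (eta b) b D)) hfin hex
  obtain ⟨g, b, hbW, hg, hli⟩ := exists_basis_mod (US (eta S0) S0 D) {b : L | Ray D b} hrk
  set U0 := US (eta S0) S0 D with hU0
  have hmk : ∀ a : L, U0.mkQ a = 0 ↔ a ∈ U0 := fun a => by
    rw [Submodule.mkQ_apply, Submodule.Quotient.mk_eq_zero]
  have hA : ∀ i, b i ∉ U0 := fun i h => hli.ne_zero i ((hmk _).mpr h)
  have hB : ∀ i, S0 ∉ US (eta (b i)) (b i) D := by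
    intro i h
    have h5 := h3 O P L phi D S0 (b i) (eta S0) (eta (b i)) hinj hbin hS0 (hbW i) (hA i)
    have h6 : U0 ≤ US (eta (b i)) (b i) D := by
      refine h5.trans (satur_le ?_)
      rw [sup_le_iff]
      refine ⟨le_rfl, ?_⟩
      rw [Submodule.span_singleton_le_iff_mem]
      exact h
    have h7 := finrank_lt_of_sat h6 (hUsat S0) (hself (b i)) (hA i)
    have h8 := hmax (b i) (hbW i)
    omega
  have hC : ∀ i, US (eta (b i)) (b i) D ≤ satur (U0 ⊔ Submodule.span ℤ {b i}) := fun i =>
    h3 O P L phi D (b i) S0 (eta (b i)) (eta S0) hinj hbin (hbW i) hS0 (hB i)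
  have hD : ∀ i a, a ∈ US (eta (b i)) (b i) D →
      ∃ n c : ℤ, n ≠ 0 ∧ n • U0.mkQ a = c • U0.mkQ (b i) := by
    intro i a ha
    obtain ⟨n, hn, h⟩ := hC i ha
    rw [Submodule.mem_sup] at h
    obtain ⟨x, hx, y, hy, hxy⟩ := h
    rw [Submodule.mem_span_singleton] at hy
    obtain ⟨c, rfl⟩ := hy
    refine ⟨n, c, hn, ?_⟩
    rw [← map_smul, ← hxy, map_add, (hmk x).mpr hx, zero_add, map_smul]
  have hlin : ∀ x : Fin g → ℤ, ∑ i, x i • U0.mkQ (b i) = 0 → ∀ i, x i = 0 :=
    Fintype.linearIndependent_iff.mp hli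
  -- all rays
  set S : Fin (g + 1) → L := Fin.cons S0 b with hS
  have hSz : S 0 = S0 := rfl
  have hSs : ∀ i : Fin g, S i.succ = b i := fun i => rfl
  have hray : ∀ i, Ray D (S i) := by
    intro i
    refine Fin.cases ?_ (fun i => ?_) i
    · exact hS0
    · exact hbW i
  have hsum : ∀ I : Finset (Fin (g + 1)), U0.mkQ (∑ i ∈ I, S i) =
      ∑ i : Fin g, (if i.succ ∈ I then (1 : ℤ) else 0) • U0.mkQ (b i) := by
    intro I
    have e1 : ∑ i ∈ I, S i = ∑ i : Fin (g + 1), (if i ∈ I then (1 : ℤ) else 0) • S i := by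
      simp only [ite_smul, one_smul, zero_smul]
      rw [Finset.sum_ite_mem, Finset.univ_inter]
    rw [e1, Fin.sum_univ_succ, map_add, map_smul, hSz,
      (hmk S0).mpr (hself S0), smul_zero, zero_add, map_sum]
    refine Finset.sum_congr rfl fun i _ => ?_
    rw [map_smul, hSs]
  have hE : ∀ (I : Finset (Fin (g + 1))) (j : Fin (g + 1)), I.Nonempty → j ∉ I →
      ∑ i ∈ I, S i ∉ US (eta (S j)) (S j) D := by
    intro I j hI
    refine Fin.cases ?_ (fun j => ?_) j
    · intro hj h
      have h5 := (hmk _).mpr h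
      rw [hsum] at h5
      have h6 := hlin _ h5
      obtain ⟨i, hi⟩ := hI
      obtain ⟨i', rfl⟩ := Fin.exists_succ_eq.mpr (fun h : i = 0 => hj (h ▸ hi))
      have h7 := h6 i'
      rw [if_pos hi] at h7
      exact one_ne_zero h7
    · intro hj h
      by_cases hI0 : ∃ i : Fin g, i.succ ∈ I
      · obtain ⟨i, hi⟩ := hI0
        obtain ⟨n, c, hn, h5⟩ := hD j _ h
        have hij : i ≠ j := fun h => hj (h ▸ hi)
        have h6 : ∑ k : Fin g, (n * (if k.succ ∈ I then (1 : ℤ) else 0) -
            (if k = j then c else 0)) • U0.mkQ (b k) = 0 := by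
          simp only [sub_smul]
          rw [Finset.sum_sub_distrib]
          have e1 : ∑ k : Fin g, (if k = j then c else 0) • U0.mkQ (b k) = c • U0.mkQ (b j) := by
            simp [ite_smul]
          have e2 : ∑ k : Fin g, (n * (if k.succ ∈ I then (1 : ℤ) else 0)) • U0.mkQ (b k) =
              n • U0.mkQ (∑ i ∈ I, S i) := by
            rw [hsum, Finset.smul_sum]
            refine Finset.sum_congr rfl fun k _ => ?_
            rw [mul_smul]
          rw [e1, e2, h5, sub_self]
        have h7 := hlin _ h6 i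
        rw [if_pos hi, if_neg hij] at h7
        apply hn
        linarith
      · push Not at hI0
        have h5 : I = {0} := by
          rw [Finset.eq_singleton_iff_nonempty_unique_mem]
          refine ⟨hI, fun i hi => ?_⟩
          by_contra h0
          obtain ⟨i', rfl⟩ := Fin.exists_succ_eq.mpr h0
          exact hI0 i' hi
        rw [h5, Finset.sum_singleton] at h
        exact hB j h
  have hnot : ∀ i j, i ≠ j → S j ∉ US (eta (S i)) (S i) D := by
    intro i j hij
    have := hE {j} i (Finset.singleton_nonempty j) (by rw [Finset.mem_singleton]; exact hij)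
    rwa [Finset.sum_singleton] at this
  have hdis : ∀ i j, i ≠ j → ∀ p, phi (S i) p = 0 ∨ phi (S j) p = 0 := fun i j hij =>
    h2 O P L phi D (S i) (S j) (eta (S j)) hinj hbin (hray i) (hray j) (hnot j i hij.symm)
  have hSb : ∀ i, Bin phi (S i) := fun i => hbin _ (hray i).1
  have hS1 : ∀ i, S i ≠ 0 := fun i => (hray i).2.1
  have hstep : ∀ (I : Finset (Fin (g + 1))) (j : Fin (g + 1)), I.Nonempty → j ∉ I →
      D.coeff (∑ i ∈ I, S i) + (eta (S j) : RO O) * D.coeff (∑ i ∈ I, S i + S j) = 0 := by
    intro I j hI hj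
    refine (h1 O P L phi D (S j) (eta (S j)) hinj hbin (hSb j) (hS1 j) _ (hE I j hI hj)).2 ?_
    intro p
    by_cases hp : phi (S j) p = 0
    · exact Or.inr hp
    · left
      rw [map_sum, Finset.sum_apply]
      refine Finset.sum_eq_zero fun i hi => ?_
      exact (hdis i j (fun h => hj (h ▸ hi)) p).resolve_right hp
  have hone : ∀ i, (eta (S i) : RO O) * D.coeff (S i) = (eta (S 0) : RO O) * D.coeff (S 0) := by
    intro i
    by_cases hi : i = 0
    · rw [hi]
    · have h5 := hstep {i} 0 (Finset.singleton_nonempty i)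
        (by rw [Finset.mem_singleton]; exact fun h => hi h.symm)
      have h6 := hstep {0} i (Finset.singleton_nonempty 0)
        (by rw [Finset.mem_singleton]; exact hi)
      rw [Finset.sum_singleton] at h5 h6
      rw [add_comm (S 0) (S i)] at h6
      linear_combination (eta (S i) : RO O) * h5 - (eta (S 0) : RO O) * h6
  refine ⟨g, S, hray, hdis, hnot, hg, ?_⟩
  intro I
  induction I using Finset.induction_on with
  | empty => intro h; exact absurd h Finset.not_nonempty_empty
  | insert j I hj ih =>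
    intro _
    rcases Finset.eq_empty_or_nonempty I with rfl | hI
    · simp [hone j]
    · have h5 := ih hI
      have h6 := hstep I j hI hj
      rw [Finset.prod_insert hj, Finset.sum_insert hj, Finset.card_insert_of_notMem hj,
        add_comm (S j)]
      rw [pow_succ]
      linear_combination (∏ i ∈ I, (eta (S i) : RO O)) * h6 - h5

end Pool.Agent.B5.H63
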