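import Pool.Agent.Lib.MP_b5021c_nt.IfaceF

/-!
# MP_b5021c_nt, board b5, row ASA: contraction of a multi-affine polynomial to disjoint blocks
(helper63)
-/

namespace Pool.Agent.B5.H63

open Pool.Agent.B5

section

variable {P : Type} [Fintype P] [DecidableEq P]

/-- the sum over all subsets, split according to two elements -/
theorem sum_split (f : Finset P → ℂ) {b c : P} (hbc : b ≠ c) :
    ∑ T : Finset P, f T =
      (∑ t ∈ ((Finset.univ.erase c).erase b).powerset, f t +
        ∑ t ∈ ((Finset.univ.erase c).erase b).powerset, f (insert b t)) +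
      (∑ t ∈ ((Finset.univ.erase c).erase b).powerset, f (insert c t) +
        ∑ t ∈ ((Finset.univ.erase c).erase b).powerset, f (insert c (insert b t))) := by
  have h0 : (Finset.univ : Finset (Finset P)) = (Finset.univ : Finset P).powerset := by
    ext t
    simp
  have h1 : (Finset.univ : Finset P) = insert c (Finset.univ.erase c) := by
    rw [Finset.insert_erase (Finset.mem_univ c)]
  have h2 : (Finset.univ.erase c : Finset P) = insert b ((Finset.univ.erase c).erase b) := by
    rw [Finset.insert_erase]
    exact Finset.mem_erase.mpr ⟨hbc, Finset.mem_univ b⟩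
  rw [h0, h1, Finset.sum_powerset_insert (Finset.notMem_erase c _)]
  rw [Finset.erase_insert (Finset.notMem_erase c _), h2]
  rw [Finset.sum_powerset_insert (Finset.notMem_erase b _),
    Finset.sum_powerset_insert (Finset.notMem_erase b _)]
  rw [Finset.erase_insert (Finset.notMem_erase b _)]

/-- merging `c` into `b` -/
def mrg (b c : P) (q : Finset P → ℂ) (T : Finset P) : ℂ :=
  if c ∈ T then 0 else if b ∈ T then q (insert c T) else q T

theorem mrg_ne (h1 : Asano1S) (q : Finset P → ℂ)
    (hq : ∀ w : P → ℂ, (∀ i, ‖w i‖ < 1) → mae q w ≠ 0) (b c : P) (hbc : b ≠ c) (w : P → ℂ)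
    (hw : ∀ i, ‖w i‖ < 1) : mae (mrg b c q) w ≠ 0 := by
  set s := ((Finset.univ.erase c).erase b : Finset P) with hs
  have hmem : ∀ t ∈ s.powerset, b ∉ t ∧ c ∉ t := by
    intro t ht
    rw [Finset.mem_powerset] at ht
    constructor
    · intro h
      exact absurd (ht h) (Finset.notMem_erase b _)
    · intro h
      have := ht h
      rw [hs, Finset.mem_erase, Finset.mem_erase] at this
      exact this.2.1 rfl
  have key : ∀ x y : ℂ, mae q (Function.update (Function.update w b x) c y) =
      (∑ t ∈ s.powerset, q t * ∏ i ∈ t, w i) +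
      (∑ t ∈ s.powerset, q (insert b t) * ∏ i ∈ t, w i) * x +
      (∑ t ∈ s.powerset, q (insert c t) * ∏ i ∈ t, w i) * y +
      (∑ t ∈ s.powerset, q (insert c (insert b t)) * ∏ i ∈ t, w i) * (x * y) := by
    intro x y
    have hp : ∀ t ∈ s.powerset, ∏ i ∈ t, Function.update (Function.update w b x) c y i =
        ∏ i ∈ t, w i := by
      intro t ht
      obtain ⟨hb, hc⟩ := hmem t ht
      refine Finset.prod_congr rfl fun i hi => ?_
      have hic : i ≠ c := fun h => hc (by rw [← h]; exact hi)
      have hib : i ≠ b := fun h => hb (by rw [← h]; exact hi)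
      rw [Function.update_of_ne hic, Function.update_of_ne hib]
    have ub : Function.update (Function.update w b x) c y b = x := by
      rw [Function.update_of_ne hbc, Function.update_self]
    have uc : Function.update (Function.update w b x) c y c = y := Function.update_self _ _ _
    unfold mae
    rw [sum_split _ hbc, ← hs, Finset.sum_mul, Finset.sum_mul, Finset.sum_mul]
    rw [← Finset.sum_add_distrib, ← Finset.sum_add_distrib, ← Finset.sum_add_distrib,
      ← Finset.sum_add_distrib, ← Finset.sum_add_distrib, ← Finset.sum_add_distrib]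
    refine Finset.sum_congr rfl fun t ht => ?_
    obtain ⟨hb, hc⟩ := hmem t ht
    have hc' : c ∉ insert b t := by
      rw [Finset.mem_insert]
      rintro (h | h)
      · exact hbc h.symm
      · exact hc h
    rw [Finset.prod_insert hb, Finset.prod_insert hc, Finset.prod_insert hc',
      Finset.prod_insert hb, hp t ht, ub, uc]
    ring
  have h2 := h1 _ _ _ _ (fun x y hx hy => by
    rw [← key x y]
    apply hq
    intro i
    by_cases hic : i = c
    · subst hic
      rw [Function.update_self]
      exact hy
    · rw [Function.update_of_ne hic]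
      by_cases hib : i = b
      · subst hib
        rw [Function.update_self]
        exact hx
      · rw [Function.update_of_ne hib]
        exact hw i) (w b) (hw b)
  have h3 : mae (mrg b c q) w = (∑ t ∈ s.powerset, q t * ∏ i ∈ t, w i) +
      (∑ t ∈ s.powerset, q (insert c (insert b t)) * ∏ i ∈ t, w i) * w b := by
    unfold mae
    rw [sum_split _ hbc, ← hs, Finset.sum_mul]
    have e1 : ∀ t ∈ s.powerset, mrg b c q t * ∏ i ∈ t, w i = q t * ∏ i ∈ t, w i := by
      intro t ht
      obtain ⟨hb, hc⟩ := hmem t ht
      rw [mrg, if_neg hc, if_neg hb]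
    have e2 : ∀ t ∈ s.powerset, mrg b c q (insert b t) * ∏ i ∈ insert b t, w i =
        q (insert c (insert b t)) * (∏ i ∈ t, w i) * w b := by
      intro t ht
      obtain ⟨hb, hc⟩ := hmem t ht
      have hc' : c ∉ insert b t := by
        rw [Finset.mem_insert]
        rintro (h | h)
        · exact hbc h.symm
        · exact hc h
      rw [mrg, if_neg hc', if_pos (Finset.mem_insert_self b t), Finset.prod_insert hb]
      ring
    have e3 : ∀ t ∈ s.powerset, mrg b c q (insert c t) * ∏ i ∈ insert c t, w i = 0 := by
      intro t _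
      rw [mrg, if_pos (Finset.mem_insert_self c t), zero_mul]
    have e4 : ∀ t ∈ s.powerset, mrg b c q (insert c (insert b t)) *
        ∏ i ∈ insert c (insert b t), w i = 0 := by
      intro t _
      rw [mrg, if_pos (Finset.mem_insert_self c _), zero_mul]
    rw [Finset.sum_congr rfl e1, Finset.sum_congr rfl e2, Finset.sum_congr rfl e3,
      Finset.sum_congr rfl e4, Finset.sum_const_zero, add_zero, add_zero]
  rw [h3]
  exact h2

/-- absorbing the elements of `E` -/
def ab (E : Finset P) (ρ : P → P) (q : Finset P → ℂ) (T : Finset P) : ℂ :=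
  if Disjoint T E then q (T ∪ E.filter fun c => ρ c ∈ T) else 0

theorem ab_ne (h1 : Asano1S) (q : Finset P → ℂ)
    (hq : ∀ w : P → ℂ, (∀ i, ‖w i‖ < 1) → mae q w ≠ 0) (ρ : P → P) :
    ∀ E : Finset P, (∀ c ∈ E, ρ c ∉ E) →
      ∀ w : P → ℂ, (∀ i, ‖w i‖ < 1) → mae (ab E ρ q) w ≠ 0 := by
  intro E
  induction E using Finset.induction_on with
  | empty =>
    intro _ w hw
    have : ab ∅ ρ q = q := by
      funext T
      simp [ab]
    rw [this]
    exact hq w hw
  | insert c E hc ih =>
    intro hE
    have hE' : ∀ a ∈ E, ρ a ∉ E := fun a ha h =>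
      hE a (Finset.mem_insert_of_mem ha) (Finset.mem_insert_of_mem h)
    have hρc : ρ c ≠ c := fun h =>
      hE c (Finset.mem_insert_self c E) (by rw [h]; exact Finset.mem_insert_self c E)
    have h2 := mrg_ne h1 (ab E ρ q) (ih hE') (ρ c) c hρc
    have h3 : ab (insert c E) ρ q = mrg (ρ c) c (ab E ρ q) := by
      funext T
      unfold mrg ab
      by_cases hcT : c ∈ T
      · rw [if_pos hcT, if_neg]
        intro h
        exact Finset.disjoint_left.mp h hcT (Finset.mem_insert_self c E)
      · rw [if_neg hcT]
        have d1 : Disjoint T (insert c E) ↔ Disjoint T E := by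
          rw [Finset.disjoint_insert_right]
          exact ⟨fun h => h.2, fun h => ⟨hcT, h⟩⟩
        have d2 : Disjoint (insert c T) E ↔ Disjoint T E := by
          rw [Finset.disjoint_insert_left]
          exact ⟨fun h => h.2, fun h => ⟨hc, h⟩⟩
        by_cases hd : Disjoint T E
        · rw [if_pos (d1.mpr hd), if_pos (d2.mpr hd), if_pos hd]
          have hf : (E.filter fun a => ρ a ∈ insert c T) = E.filter fun a => ρ a ∈ T := by
            refine Finset.filter_congr fun a ha => ?_
            rw [Finset.mem_insert]
            constructor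
            · rintro (h | h)
              · exact absurd (h ▸ Finset.mem_insert_self c E)
                  (hE a (Finset.mem_insert_of_mem ha))
              · exact h
            · exact Or.inr
          rw [hf]
          by_cases hr : ρ c ∈ T
          · rw [if_pos hr, Finset.filter_insert, if_pos hr, Finset.union_insert,
              Finset.insert_union]
          · rw [if_neg hr, Finset.filter_insert, if_neg hr]
        · rw [if_neg (fun h => hd (d1.mp h)), if_neg (fun h => hd (d2.mp h)), if_neg hd]
          simp
    rw [h3]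
    exact h2

end

/-- ASA -/
theorem asa (h1 : Asano1S) : AsanoS := by
  classical
  intro P _ _ p hp n B hdis hne y hy
  choose b hb using hne
  have hbinj : Function.Injective b := by
    intro i j hij
    by_contra h
    exact Finset.disjoint_left.mp (hdis i j h) (hb i) (hij ▸ hb j)
  have huniq : ∀ (i j : Fin n) (c : P), c ∈ B i → c ∈ B j → i = j := by
    intro i j c hi hj
    by_contra h
    exact Finset.disjoint_left.mp (hdis i j h) hi hj
  set ρ : P → P := fun c => if h : ∃ i, c ∈ B i then b h.choose else c with hρ
  have hρB : ∀ (i : Fin n) (c : P), c ∈ B i → ρ c = b i := by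
    intro i c hc
    have h : ∃ i, c ∈ B i := ⟨i, hc⟩
    have : ρ c = b h.choose := by rw [hρ]; exact dif_pos h
    rw [this, huniq _ _ c h.choose_spec hc]
  set E : Finset P := Finset.univ.biUnion fun i => (B i).erase (b i) with hE
  have hmemE : ∀ c, c ∈ E ↔ ∃ i, c ≠ b i ∧ c ∈ B i := by
    intro c
    rw [hE, Finset.mem_biUnion]
    constructor
    · rintro ⟨i, -, hi⟩
      exact ⟨i, Finset.mem_erase.mp hi⟩
    · rintro ⟨i, hi⟩
      exact ⟨i, Finset.mem_univ i, Finset.mem_erase.mpr hi⟩
  have hbE : ∀ i, b i ∉ E := by
    intro i h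
    obtain ⟨j, h2, h3⟩ := (hmemE _).mp h
    exact h2 (by rw [huniq i j (b i) (hb i) h3])
  have hρE : ∀ c ∈ E, ρ c ∉ E := by
    intro c hc
    obtain ⟨i, -, hi⟩ := (hmemE c).mp hc
    rw [hρB i c hi]
    exact hbE i
  set w : P → ℂ := fun c => if h : ∃ i, b i = c then y h.choose else 0 with hw
  have hwb : ∀ i, w (b i) = y i := by
    intro i
    have h : ∃ j, b j = b i := ⟨i, rfl⟩
    have h2 : w (b i) = y h.choose := by rw [hw]; exact dif_pos h
    rw [h2, hbinj h.choose_spec]
  have hw0 : ∀ c, (¬ ∃ i, b i = c) → w c = 0 := by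
    intro c h
    rw [hw]
    exact dif_neg h
  have hw1 : ∀ c, ‖w c‖ < 1 := by
    intro c
    by_cases h : ∃ i, b i = c
    · obtain ⟨i, rfl⟩ := h
      rw [hwb]
      exact hy i
    · rw [hw0 c h, norm_zero]
      exact one_pos
  have h2 := ab_ne h1 p hp ρ E hρE w hw1
  have h3 : mae (ab E ρ p) w = ∑ I : Finset (Fin n), p (I.biUnion B) * ∏ i ∈ I, y i := by
    unfold mae
    have h4 : ∑ T : Finset P, ab E ρ p T * ∏ i ∈ T, w i =
        ∑ T ∈ (Finset.univ : Finset (Finset (Fin n))).image (fun I => I.image b),
          ab E ρ p T * ∏ i ∈ T, w i := by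
      refine (Finset.sum_subset (Finset.subset_univ _) fun T _ hT => ?_).symm
      have h5 : ∃ c ∈ T, ¬ ∃ i, b i = c := by
        by_contra h
        push Not at h
        apply hT
        rw [Finset.mem_image]
        refine ⟨Finset.univ.filter fun i => b i ∈ T, Finset.mem_univ _, ?_⟩
        ext c
        rw [Finset.mem_image]
        constructor
        · rintro ⟨i, hi, rfl⟩
          exact (Finset.mem_filter.mp hi).2
        · intro hc
          obtain ⟨i, hi⟩ := h c hc
          exact ⟨i, Finset.mem_filter.mpr ⟨Finset.mem_univ i, by rw [hi]; exact hc⟩, hi⟩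
      obtain ⟨c, hcT, hc⟩ := h5
      rw [Finset.prod_eq_zero hcT (hw0 c hc), mul_zero]
    rw [h4, Finset.sum_image fun I _ J _ h => Finset.image_injective hbinj h]
    refine Finset.sum_congr rfl fun I _ => ?_
    congr 1
    · unfold ab
      rw [if_pos]
      · congr 1
        ext c
        have hbi : c ∈ I.biUnion B ↔ ∃ a ∈ I, c ∈ B a := Finset.mem_biUnion
        rw [hbi, Finset.mem_union, Finset.mem_filter, Finset.mem_image]
        constructor
        · rintro (⟨i, hi, rfl⟩ | ⟨hcE, hc⟩)
          · exact ⟨i, hi, hb i⟩
          · obtain ⟨i, -, hi⟩ := (hmemE c).mp hcE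
            rw [hρB i c hi, Finset.mem_image] at hc
            obtain ⟨j, hj, hj2⟩ := hc
            rw [hbinj hj2] at hj
            exact ⟨i, hj, hi⟩
        · rintro ⟨i, hi, hc⟩
          by_cases hcb : c = b i
          · left
            exact ⟨i, hi, hcb.symm⟩
          · right
            refine ⟨(hmemE c).mpr ⟨i, hcb, hc⟩, ?_⟩
            rw [hρB i c hc]
            exact Finset.mem_image_of_mem b hi
      · rw [Finset.disjoint_left]
        intro c hc
        obtain ⟨i, -, rfl⟩ := Finset.mem_image.mp hc
        exact hbE i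
    · rw [Finset.prod_image fun i _ j _ h => hbinj h]
      exact Finset.prod_congr rfl fun i _ => hwb i
  rw [← h3]
  exact h2

end Pool.Agent.B5.H63
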