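import Pool.Agent.Lib.MP_b5021c_nt.IfaceD
import Pool.Agent.Lib.MP_b5021c_nt.B.H36.Evr

/-!
# MP_b5021c_nt, board b5, row MVC: the Mahler measure of the classes `V(N)` and `P(θ)` (helper63)
-/

namespace Pool.Agent.B5.H63

open scoped LaurentPolynomial
open Polynomial Pool.Agent.B5

section

variable {O : Type} [CommRing O] [Coef O]

theorem evL_circle (z : Circle) (Q : RO O) : evL (z : ℂ) Q = evR z Q := (H36.evR_eq z Q).symm

theorem norm_evL_shift (z : ℂ) (hz : ‖z‖ = 1) (n : ℤ) (q : Polynomial O) :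
    ‖evL z (LaurentPolynomial.T n * Polynomial.toLaurent q : RO O)‖ =
      ‖(q.map (Coef.emb : O →+* ℂ)).eval z‖ := by
  have h : ∃ c : Circle, (c : ℂ) = z := ⟨⟨z, mem_sphere_zero_iff_norm.mpr hz⟩, rfl⟩
  obtain ⟨c, rfl⟩ := h
  rw [evL_circle, map_mul, norm_mul]
  have h1 : ‖evR c (LaurentPolynomial.T n : RO O)‖ = 1 := by
    have h2 := H36.evR_CT c (1 : O) n
    rw [map_one, one_mul, map_one, one_mul] at h2
    rw [h2, norm_zpow, Circle.norm_coe, one_zpow]
  rw [h1, one_mul]
  congr 1
  unfold evR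
  rw [LaurentPolynomial.eval₂_toLaurent, Polynomial.eval_map]
  rfl

theorem M_shift (n : ℤ) (q : Polynomial O) (hq : q.map (Coef.emb : O →+* ℂ) ≠ 0) :
    M (LaurentPolynomial.T n * Polynomial.toLaurent q : RO O) =
      (q.map (Coef.emb : O →+* ℂ)).mahlerMeasure := by
  rw [Polynomial.mahlerMeasure_def_of_ne_zero hq]
  unfold M
  have h : Set.EqOn
      (fun z => Real.log ‖evL z (LaurentPolynomial.T n * Polynomial.toLaurent q : RO O)‖)
      (fun z => Real.log ‖(q.map (Coef.emb : O →+* ℂ)).eval z‖) (Metric.sphere 0 |(1 : ℝ)|) := by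
    intro z hz
    rw [abs_one, mem_sphere_zero_iff_norm] at hz
    change Real.log ‖evL z _‖ = Real.log ‖(q.map (Coef.emb : O →+* ℂ)).eval z‖
    rw [norm_evL_shift z hz]
  rw [Real.circleAverage_congr_sphere h, Real.circleAverage_def, smul_eq_mul]

end

theorem norm_coeff_zero (p : ℂ[X]) :
    ‖p.coeff 0‖ = ‖p.leadingCoeff‖ * (p.roots.map fun a => ‖a‖).prod := by
  have h := (IsAlgClosed.splits p).eq_prod_roots
  have h2 : p.coeff 0 = p.leadingCoeff * (p.roots.map fun a => -a).prod := by
    rw [Polynomial.coeff_zero_eq_eval_zero]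
    conv_lhs => rw [h]
    rw [Polynomial.eval_mul, Polynomial.eval_C, Polynomial.eval_multiset_prod, Multiset.map_map]
    congr 2
    refine Multiset.map_congr rfl fun a _ => ?_
    simp
  rw [h2, norm_mul]
  congr 1
  have h3 := map_multiset_prod (normHom : ℂ →*₀ ℝ) (p.roots.map fun a => -a)
  rw [Multiset.map_map] at h3
  change ‖(p.roots.map fun a => -a).prod‖ = _
  refine Eq.trans ?_ (h3.trans ?_)
  · rfl
  · congr 1
    refine Multiset.map_congr rfl fun a _ => ?_
    simp

/-- MVC -/
theorem mvc : MVS := by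
  intro O _ _ _ _
  constructor
  · rintro N Q ⟨hN, n, q, rfl, hq, hz⟩
    have hp0 : (q.map (Coef.emb : O →+* ℂ)).coeff 0 ≠ 0 := by
      intro h
      rw [Polynomial.coeff_map] at h
      rw [h, norm_zero] at hq
      linarith
    have hp : q.map (Coef.emb : O →+* ℂ) ≠ 0 := fun h => hp0 (by rw [h, Polynomial.coeff_zero])
    have hq0 : q ≠ 0 := fun h => hp (by rw [h, Polynomial.map_zero])
    refine ⟨?_, ?_⟩
    · exact mul_ne_zero (LaurentPolynomial.isUnit_T n).ne_zero
        ((map_ne_zero_iff _ Polynomial.toLaurent_injective).mpr hq0)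
    · rw [M_shift n q hp, Polynomial.mahlerMeasure_eq_leadingCoeff_mul_prod_roots, ← hq,
        ← Polynomial.coeff_map, norm_coeff_zero]
      congr 2
      refine Multiset.map_congr rfl fun a ha => ?_
      rw [max_eq_right]
      by_contra h
      exact hz a (not_le.mp h) (Polynomial.isRoot_of_mem_roots ha)
  · rintro θ Q ⟨hθ, n, q, rfl, hq, w, hw, hr⟩
    have hp0 : (q.map (Coef.emb : O →+* ℂ)).coeff 0 ≠ 0 := by
      intro h
      rw [Polynomial.coeff_map] at h
      rw [h, norm_zero] at hq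
      exact zero_ne_one hq
    have hp : q.map (Coef.emb : O →+* ℂ) ≠ 0 := fun h => hp0 (by rw [h, Polynomial.coeff_zero])
    have hq0 : q ≠ 0 := fun h => hp (by rw [h, Polynomial.map_zero])
    refine ⟨?_, ?_⟩
    · exact mul_ne_zero (LaurentPolynomial.isUnit_T n).ne_zero
        ((map_ne_zero_iff _ Polynomial.toLaurent_injective).mpr hq0)
    · rw [M_shift n q hp, Polynomial.mahlerMeasure_eq_leadingCoeff_mul_prod_roots]
      set p := q.map (Coef.emb : O →+* ℂ) with hpdef
      have hθ0 : 0 < θ := by linarith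
      have h1 := norm_coeff_zero p
      rw [hpdef, Polynomial.coeff_map, hq, ← hpdef] at h1
      have hsplit := Multiset.filter_add_not (fun x : ℂ => ‖x‖ < 1) p.roots
      rw [hr] at hsplit
      rw [← hsplit, Multiset.map_add, Multiset.prod_add, Multiset.map_singleton,
        Multiset.prod_singleton] at h1 ⊢
      have h2 : ((p.roots.filter fun x : ℂ => ¬ ‖x‖ < 1).map fun a => max 1 ‖a‖) =
          ((p.roots.filter fun x : ℂ => ¬ ‖x‖ < 1).map fun a => ‖a‖) := by
        refine Multiset.map_congr rfl fun a ha => ?_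
        rw [Multiset.mem_filter] at ha
        exact max_eq_right (not_lt.mp ha.2)
      have h3 : max 1 ‖w‖ = 1 := by
        rw [hw]
        exact max_eq_left (inv_le_one_of_one_le₀ hθ.le)
      rw [h2, h3, one_mul]
      rw [hw] at h1
      field_simp at h1
      linarith

end Pool.Agent.B5.H63
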