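import Pool.Agent.Lib.MP_b5021c_nt.IfaceD

/-!
# MP_b5021c_nt, board b5, row RSP: the support is in the cone of the rays (helper63)
-/

namespace Pool.Agent.B5.H63

open Pool.Agent.B5

/-- RSP -/
theorem rsp (h1 : D1S) (h2 : RkS) : RaySpanS := by
  classical
  intro O _ _ _ _ L _ _ _ G hpos hthin
  obtain ⟨lam, hlam⟩ := hpos
  set S : Finset L := G.coeff.support.erase 0 with hS
  have hmem : ∀ a, a ∈ S ↔ a ∈ supp G ∧ a ≠ 0 := by
    intro a
    rw [hS, Finset.mem_erase, Finsupp.mem_support_iff]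
    exact ⟨fun h => ⟨h.2, h.1⟩, fun h => ⟨h.2, h.1⟩⟩
  have hexp : Expd S = {b | Ray G b} := by
    ext b
    constructor
    · rintro ⟨hb, l, hl, hp⟩
      obtain ⟨hb1, hb2⟩ := (hmem b).mp hb
      exact ⟨hb1, hb2, l, hl, fun a ha ha0 hab => hp a ((hmem a).mpr ⟨ha, ha0⟩) hab⟩
    · rintro ⟨hb1, hb2, l, hl, hp⟩
      refine ⟨(hmem b).mpr ⟨hb1, hb2⟩, l, hl, fun a ha hab => ?_⟩
      obtain ⟨ha1, ha2⟩ := (hmem a).mp ha
      exact hp a ha1 ha2 hab
  have hd1 := h1 L S ⟨lam, fun a ha => hlam a (Finsupp.mem_support_iff.mpr ((hmem a).mp ha).1)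
    ((hmem a).mp ha).2⟩ (fun a ha b hb m n hm hn h => hthin a ((hmem a).mp ha).1 b
      ((hmem b).mp hb).1 m n hm hn h)
  rw [hexp] at hd1
  have hcl : ∀ a ∈ supp G, a ≠ 0 → ∃ n : ℕ, 0 < n ∧ n • a ∈ AddSubmonoid.closure {b | Ray G b} :=
    fun a ha ha0 => hd1 a ((hmem a).mpr ⟨ha, ha0⟩)
  obtain ⟨_, hmono, _, _, _, _, _, _, htor, _⟩ := h2 L L
  refine ⟨hcl, le_antisymm (hmono _ _ fun b hb => hb.1) (htor _ _ fun a ha => ?_), ?_⟩
  · by_cases ha0 : a = 0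
    · refine ⟨1, one_ne_zero, ?_⟩
      rw [ha0, smul_zero]
      exact Submodule.zero_mem _
    · obtain ⟨n, hn, h⟩ := hcl a ha ha0
      refine ⟨n, by exact_mod_cast hn.ne', ?_⟩
      rw [natCast_zsmul]
      have h3 : AddSubmonoid.closure {b | Ray G b} ≤
          (Submodule.span ℤ {b | Ray G b}).toAddSubmonoid :=
        AddSubmonoid.closure_le.mpr Submodule.subset_span
      exact h3 h
  · rintro ⟨a, ha, b, hb, hab⟩
    have h3 : ∃ a ∈ supp G, a ≠ 0 := by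
      by_cases ha0 : a = 0
      · exact ⟨b, hb, fun h => hab (ha0.trans h.symm)⟩
      · exact ⟨a, ha, ha0⟩
    obtain ⟨c, hc, hc0⟩ := h3
    obtain ⟨n, hn, h⟩ := hcl c hc hc0
    by_contra hno
    have h4 : {b | Ray G b} = (∅ : Set L) := by
      ext x
      exact ⟨fun hx => hno ⟨x, hx⟩, fun hx => hx.elim⟩
    rw [h4, AddSubmonoid.closure_empty, AddSubmonoid.mem_bot] at h
    have h5 : (n : ℤ) • c = 0 := by rw [natCast_zsmul]; exact h
    rcases smul_eq_zero.mp h5 with h6 | h6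
    · exact hn.ne' (by exact_mod_cast h6)
    · exact hc0 h6

end Pool.Agent.B5.H63
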